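import Pool.Agent.Helper68.VN.GoalsT
import Pool.Agent.Helper65.SG.Tay
import Pool.Agent.Helper62.SGB.EPHI

/-!
# Packet PG-TAYF (MP_a41896_nt): the centre in the Taylor frame
-/

set_option autoImplicit false

open MvPolynomial

namespace Pool.Agent.Helper73.VN.TAYF

open WeierstrassCurve Height
open Pool.Agent.Helper29.BL Pool.Agent.Helper92.Ru Pool.Agent.Helper42.SG
open Pool.Agent.Helper65.SG Pool.Agent.Helper68.VN
open Pool.Agent.Helper62.SGB (plc_mul plc_prod plc_cst plc_Mv plc_one plc_pos le_prod_one)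

section gd

variable {K : Type} [Field K] {v : AbsoluteValue K ℝ} {A : Type} [CommRing A] [Algebra K A]
  {N : A → ℝ → Prop}

/-- `P` is near the constant `p` -/
structure Gd (v : AbsoluteValue K ℝ) (N : A → ℝ → Prop) (ρ : ℝ) (P : A) (p : K) (c T : ℝ) :
    Prop where
  c1 : 1 ≤ c
  T0 : 0 ≤ T
  vp : v p ≤ T
  nP : N P (c * T)
  nD : N (P - algebraMap K A p) (c * ρ * T)

lemma Gd.mul (hN : NFr v N) {ρ : ℝ} (hρ : 0 ≤ ρ) {P Q : A} {p q : K} {c T d S : ℝ}
    (h : Gd v N ρ P p c T) (g : Gd v N ρ Q q d S) :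
    Gd v N ρ (P * Q) (p * q) (c2 v * (c * d)) (T * S) := by
  have hc := one_le_c2 v
  have hc1 := h.c1
  have hd1 := g.c1
  have hT := h.T0
  have hS := g.T0
  have hcd : 1 ≤ c * d := one_le_mul_of_one_le_of_one_le hc1 hd1
  have hc0 : 0 ≤ c := by linarith
  have hd0 : 0 ≤ d := by linarith
  refine ⟨one_le_mul_of_one_le_of_one_le hc hcd, mul_nonneg hT hS, ?_, ?_, ?_⟩
  · rw [map_mul]; exact mul_le_mul h.vp g.vp (v.nonneg _) hT
  · refine hN.mono _ _ _ (hN.mul _ _ _ _ h.nP g.nP) ?_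
    have h0 : 0 ≤ c * d * (T * S) := by positivity
    calc c * T * (d * S) = 1 * (c * d * (T * S)) := by ring
      _ ≤ c2 v * (c * d * (T * S)) := mul_le_mul_of_nonneg_right hc h0
      _ = _ := by ring
  · have e : P * Q - algebraMap K A (p * q) =
        (P - algebraMap K A p) * Q + algebraMap K A p * (Q - algebraMap K A q) := by
      rw [map_mul]; ring
    rw [e]
    have h1 := hN.mul _ _ _ _ h.nD g.nP
    have h2 := hN.mul _ _ _ _ (hN.const p) g.nD
    have h3 := hN.mono _ _ (c * d * ρ * (T * S)) h1 (le_of_eq (by ring))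
    have h4 := hN.mono _ _ (c * d * ρ * (T * S)) h2 (by
      have h0 : 0 ≤ d * ρ * S := by positivity
      have h5 : 0 ≤ T * (d * ρ * S) := by positivity
      calc v p * (d * ρ * S) ≤ T * (d * ρ * S) := mul_le_mul_of_nonneg_right h.vp h0
        _ = 1 * (T * (d * ρ * S)) := by ring
        _ ≤ c * (T * (d * ρ * S)) := mul_le_mul_of_nonneg_right hc1 h5
        _ = _ := by ring)
    exact hN.mono _ _ _ (frame_add hN h3 h4) (le_of_eq (by ring))

lemma Gd.mono (hN : NFr v N) {ρ : ℝ} (hρ : 0 ≤ ρ) {P : A} {p : K} {c T c' T' : ℝ}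
    (h : Gd v N ρ P p c T) (hc : c ≤ c') (hT : T ≤ T') : Gd v N ρ P p c' T' := by
  have h1 := h.c1
  have h2 := h.T0
  refine ⟨h1.trans hc, h2.trans hT, h.vp.trans hT, hN.mono _ _ _ h.nP ?_,
    hN.mono _ _ _ h.nD ?_⟩
  · exact mul_le_mul hc hT h2 (by linarith)
  · exact mul_le_mul (mul_le_mul_of_nonneg_right hc hρ) hT h2
      (mul_nonneg (by linarith) hρ)

lemma Gd.const (hN : NFr v N) {ρ : ℝ} (hρ : 0 ≤ ρ) (p : K) :
    Gd v N ρ (algebraMap K A p) p 1 (v p) := by
  refine ⟨le_rfl, v.nonneg _, le_rfl, ?_, ?_⟩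
  · rw [one_mul]; exact hN.const p
  · rw [sub_self]
    have := hN.const 0
    rw [map_zero, map_zero] at this
    exact hN.mono _ _ _ this (by have := v.nonneg p; positivity)

lemma Gd.one (hN : NFr v N) {ρ : ℝ} (hρ : 0 ≤ ρ) : Gd v N ρ (1 : A) 1 1 1 := by
  have := Gd.const (A := A) (N := N) hN hρ 1
  simpa using this

lemma Gd.pow (hN : NFr v N) {ρ : ℝ} (hρ : 0 ≤ ρ) {P : A} {p : K} {c T : ℝ}
    (h : Gd v N ρ P p c T) (k : ℕ) : Gd v N ρ (P ^ k) (p ^ k) ((c2 v * c) ^ k) (T ^ k) := by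
  induction k with
  | zero => simpa using Gd.one (A := A) hN hρ
  | succ k ih =>
    have := Gd.mul hN hρ ih h
    rw [pow_succ P, pow_succ p, pow_succ T]
    refine this.mono hN hρ (le_of_eq ?_) le_rfl
    ring

lemma Gd.prod (hN : NFr v N) {ρ : ℝ} (hρ : 0 ≤ ρ) {ι : Type} (s : Finset ι) (P : ι → A)
    (p : ι → K) (c T : ι → ℝ) (h : ∀ i, Gd v N ρ (P i) (p i) (c i) (T i)) :
    Gd v N ρ (∏ i ∈ s, P i) (∏ i ∈ s, p i) (∏ i ∈ s, (c2 v * c i)) (∏ i ∈ s, T i) := by
  classical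
  induction s using Finset.induction_on with
  | empty => simpa using Gd.one (A := A) hN hρ
  | insert a s ha ih =>
    have := Gd.mul hN hρ (h a) ih
    rw [Finset.prod_insert ha, Finset.prod_insert ha, Finset.prod_insert ha,
      Finset.prod_insert ha]
    refine this.mono hN hρ (le_of_eq ?_) le_rfl
    ring

lemma frame_sum (hN : NFr v N) {ι : Type} (s : Finset ι) (P : ι → A) (T : ℝ) (hT : 0 ≤ T)
    (h : ∀ i ∈ s, N (P i) T) : N (∑ i ∈ s, P i) (c2 v ^ s.card * T) := by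
  classical
  have hc := one_le_c2 v
  induction s using Finset.induction_on with
  | empty =>
    have := hN.const 0
    rw [map_zero, map_zero] at this
    simpa using hN.mono _ _ _ this hT
  | insert a s ha ih =>
    rw [Finset.sum_insert ha, Finset.card_insert_of_notMem ha]
    have h1 := ih fun i hi => h i (Finset.mem_insert_of_mem hi)
    have h2 := hN.mono _ _ (c2 v ^ s.card * T) (h a (Finset.mem_insert_self a s)) (by
      exact le_mul_of_one_le_left hT (one_le_pow₀ hc))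
    exact hN.mono _ _ _ (frame_add hN h2 h1) (le_of_eq (by ring))

lemma Gd.sum (hN : NFr v N) {ρ : ℝ} (hρ : 0 ≤ ρ) {ι : Type} (s : Finset ι) (P : ι → A)
    (p : ι → K) (c T : ℝ) (hc : 1 ≤ c) (hT : 0 ≤ T) (h : ∀ i ∈ s, Gd v N ρ (P i) (p i) c T) :
    Gd v N ρ (∑ i ∈ s, P i) (∑ i ∈ s, p i) c (c2 v ^ s.card * T) := by
  have hc2 := one_le_c2 v
  have hpos : 0 ≤ c2 v ^ s.card := by positivity
  refine ⟨hc, mul_nonneg hpos hT, ?_, ?_, ?_⟩
  · exact frame_sum (A := K) (t_FRPT K v) s p T hT fun i hi => (h i hi).vp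
  · exact hN.mono _ _ _ (frame_sum hN s P (c * T) (by positivity) fun i hi => (h i hi).nP)
      (le_of_eq (by ring))
  · have e : ∑ i ∈ s, P i - algebraMap K A (∑ i ∈ s, p i) =
        ∑ i ∈ s, (P i - algebraMap K A (p i)) := by
      rw [map_sum, Finset.sum_sub_distrib]
    rw [e]
    exact hN.mono _ _ _ (frame_sum hN s _ (c * ρ * T) (by positivity) fun i hi => (h i hi).nD)
      (le_of_eq (by ring))

end gd

theorem t_TAYF (hF : FRPS) : Pool.Agent.Helper68.VN.TAYF := by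
  classical
  intro K _ _ σ _ _ W J _ D f hdeg B hB
  -- constants
  obtain ⟨n0, hn0⟩ : ∃ n0 : ℕ, n0 = ∑ k, (f k).support.card := ⟨_, rfl⟩
  obtain ⟨a, ha⟩ : ∃ a : ℕ, a = 1 + 2 * D := ⟨_, rfl⟩
  obtain ⟨Gc, hGc⟩ : ∃ Gc : AbsoluteValue K ℝ → ℝ, ∀ v, Gc v =
    ∏ k, ∏ g ∈ (f k).support, Mv v (coeff g (f k)) := ⟨_, fun _ => rfl⟩
  obtain ⟨Gb, hGb⟩ : ∃ Gb : AbsoluteValue K ℝ → ℝ, ∀ v, Gb v = ∏ i, bet (W i) v :=
    ⟨_, fun _ => rfl⟩
  have hcst : PlC (K := K) fun v => c2 v := plc_cst (by norm_num)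
  have hpow : ∀ m : ℕ, PlC (K := K) fun v => c2 v ^ m := by
    intro m
    have := plc_prod (K := K) (Finset.range m) (fun _ v => c2 v) (fun _ _ => hcst)
    simpa using this
  have pGc : PlC Gc := by
    have := plc_prod (K := K) Finset.univ (fun k v => ∏ g ∈ (f k).support, Mv v (coeff g (f k)))
      (fun k _ => plc_prod _ _ fun g _ => plc_Mv _)
    have e : Gc = fun v => ∏ k, ∏ g ∈ (f k).support, Mv v (coeff g (f k)) := funext hGc
    rw [e]; exact this
  have pGb : PlC Gb := by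
    have := plc_prod (K := K) Finset.univ (fun i v => bet (W i) v)
      (fun i _ => ⟨fun v => one_le_bet _ _, FS_log_bet _⟩)
    have e : Gb = fun v => ∏ i, bet (W i) v := funext hGb
    rw [e]; exact this
  obtain ⟨m, hm⟩ : ∃ m : ℕ, m = 6 + (1 + (1 + (Fintype.card σ * a + n0 + 1))) := ⟨_, rfl⟩
  refine ⟨fun v => B v * (c2 v ^ m * (Gb v * Gc v)),
    plc_mul hB (plc_mul (hpow m) (plc_mul pGb pGc)), fun v => ?_, ?_⟩
  · have h1 := hB.one_le v
    have h2 := (plc_mul (hpow m) (plc_mul pGb pGc)).one_le v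
    exact le_mul_of_one_le_right (by linarith) h2
  intro n ξ ψ X Ψ hT hψ hne v j k
  obtain ⟨b, hb⟩ : ∃ b : ℝ, b = B v * (c2 v ^ m * (Gb v * Gc v)) := ⟨_, rfl⟩
  have hc := one_le_c2 v
  have hc0 : 0 < c2 v := by linarith
  have hB1 := hB.one_le v
  have hGb1 := pGb.one_le v
  have hGc1 := pGc.one_le v
  have hb1 : 1 ≤ b := by
    rw [hb]
    exact (plc_mul hB (plc_mul (hpow m) (plc_mul pGb pGc))).one_le v
  have hb0 : 0 < b := by linarith
  show NPS v (rad D f (B v * (c2 v ^ m * (Gb v * Gc v))) v ξ) (aeval (X j) (f k))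
    (rho D f v (ξ j) * (B v * (c2 v ^ m * (Gb v * Gc v)) * (∏ i, Mv v (ξ j i)) ^ D))
  rw [← hb]
  -- products of the `Mv`
  have hM1 : ∀ j i, 1 ≤ Mv v (ξ j i) := fun j i => one_le_Mv v _
  have hPM : ∀ j, 1 ≤ ∏ i, Mv v (ξ j i) := by
    intro j
    calc (1 : ℝ) = ∏ _i : σ, 1 := by simp
      _ ≤ _ := Finset.prod_le_prod (fun _ _ => zero_le_one) fun i _ => hM1 j i
  have hPD : ∀ j, 0 < (∏ i, Mv v (ξ j i)) ^ D := fun j => pow_pos (by have := hPM j; linarith) D
  -- `ρ`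
  have hbdd : ∀ j, BddAbove (Set.range fun k => v (eval (ξ j) (f k))) := fun j =>
    Set.finite_range _ |>.bddAbove
  have hSle : ∀ j k, v (eval (ξ j) (f k)) ≤ ⨆ k, v (eval (ξ j) (f k)) := fun j k =>
    le_ciSup (hbdd j) k
  have hρ0 : ∀ j, 0 < rho D f v (ξ j) := by
    intro j
    obtain ⟨k, hk⟩ := hne j
    have h1 : 0 < ⨆ k, v (eval (ξ j) (f k)) := lt_of_lt_of_le (v.pos hk) (hSle j k)
    exact lt_min one_pos (div_pos h1 (hPD j))
  have hρ1 : ∀ j, rho D f v (ξ j) ≤ 1 := fun j => min_le_left _ _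
  -- the frame
  have hr : ∀ h, 0 < rad D f b v ξ h := by
    intro h
    unfold rad
    have h1 : 0 < Mv v (ξ h.1 h.2) := Mv_pos v _
    exact div_pos (hρ0 _) (by positivity)
  obtain ⟨NF, -⟩ := hF K v (Fin n × σ) (rad D f b v ξ) hr
  have alg : ∀ c : K, (MvPowerSeries.C c : MvPowerSeries (Fin n × σ) K) =
      algebraMap K (MvPowerSeries (Fin n × σ) K) c := by
    intro c
    rw [MvPowerSeries.algebraMap_apply]
    rfl
  set ρ : ℝ := rho D f v (ξ j) with hρ
  have hρ0' : 0 ≤ ρ := (hρ0 j).le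
  -- the variables
  have hX : ∀ i, Gd v (NPS v (rad D f b v ξ)) ρ (X j i) (ξ j i) (c2 v) (Mv v (ξ j i)) := by
    intro i
    have hM := hM1 j i
    have hM0 : 0 < Mv v (ξ j i) := by linarith
    have hbi : bet (W i) v ≤ Gb v := by
      rw [hGb]
      exact le_prod_one Finset.univ (fun i => bet (W i) v) (fun i _ => one_le_bet _ _)
        (Finset.mem_univ i)
    obtain ⟨-, -, -, hq, -⟩ := tay_est (W i) v (Gb v) hbi (ξ j i) (ψ j i) (hψ j i)
    have hu : NPS v (rad D f b v ξ) (X j i - algebraMap K _ (ξ j i)) (ρ * Mv v (ξ j i)) := by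
      have e : X j i - algebraMap K _ (ξ j i) =
          algebraMap K _ (4 * ψ j i ^ 2) * MvPowerSeries.X (j, i) := by
        rw [hT.eqX, alg, alg]; ring
      rw [e]
      refine NF.mono _ _ _ (NF.mul _ _ _ _ (NF.const _) (nps_X hr (j, i))) ?_
      have h1 : rad D f b v ξ (j, i) = ρ / (b * Mv v (ξ j i) ^ 2) := rfl
      rw [h1]
      have h2 : c2 v ^ 6 * Gb v ≤ b := by
        rw [hb, hm]
        calc c2 v ^ 6 * Gb v = 1 * (c2 v ^ 6 * (Gb v * 1)) := by ring
          _ ≤ B v * (c2 v ^ (6 + (1 + (1 + (Fintype.card σ * a + n0 + 1)))) * (Gb v * Gc v)) := by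
            gcongr
            omega
      calc v (4 * ψ j i ^ 2) * (ρ / (b * Mv v (ξ j i) ^ 2))
          ≤ (c2 v ^ 6 * Gb v * Mv v (ξ j i) ^ 3) * (ρ / (b * Mv v (ξ j i) ^ 2)) := by
            gcongr
        _ ≤ (b * Mv v (ξ j i) ^ 3) * (ρ / (b * Mv v (ξ j i) ^ 2)) := by
            gcongr
        _ = ρ * Mv v (ξ j i) := by
            field_simp
    refine ⟨hc, hM0.le, le_max_right _ _, ?_, ?_⟩
    · have e : X j i = (X j i - algebraMap K _ (ξ j i)) + algebraMap K _ (ξ j i) := by ring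
      rw [e]
      refine frame_add NF (NF.mono _ _ _ hu ?_) (NF.mono _ _ _ (NF.const _) (le_max_right _ _))
      have := hρ1 j
      calc ρ * Mv v (ξ j i) ≤ 1 * Mv v (ξ j i) := by gcongr
        _ = _ := one_mul _
    · refine NF.mono _ _ _ hu ?_
      calc ρ * Mv v (ξ j i) = 1 * ρ * Mv v (ξ j i) := by ring
        _ ≤ c2 v * ρ * Mv v (ξ j i) := by gcongr
  -- the monomials
  have hmon : ∀ g ∈ (f k).support, Gd v (NPS v (rad D f b v ξ)) ρ
      (algebraMap K _ (coeff g (f k)) * ∏ i, X j i ^ g i) (coeff g (f k) * ∏ i, ξ j i ^ g i)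
      (c2 v ^ (1 + Fintype.card σ * a)) (Gc v * (∏ i, Mv v (ξ j i)) ^ D) := by
    intro g hg
    have hgD : ∀ i, g i ≤ D := fun i => (degreeOf_le_iff.1 (hdeg k i)) g hg
    have h1 := Gd.prod NF hρ0' Finset.univ (fun i => X j i ^ g i) (fun i => ξ j i ^ g i)
      (fun i => (c2 v * c2 v) ^ g i) (fun i => Mv v (ξ j i) ^ g i)
      (fun i => Gd.pow NF hρ0' (hX i) (g i))
    have h2 := Gd.mul NF hρ0' (Gd.const (A := MvPowerSeries (Fin n × σ) K) NF hρ0'
      (coeff g (f k))) h1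
    refine h2.mono NF hρ0' ?_ ?_
    · rw [one_mul, pow_add, pow_one]
      refine mul_le_mul_of_nonneg_left ?_ hc0.le
      calc ∏ i, (c2 v * (c2 v * c2 v) ^ g i) ≤ ∏ _i : σ, c2 v ^ a := by
            refine Finset.prod_le_prod (fun i _ => by positivity) fun i _ => ?_
            have e : c2 v * (c2 v * c2 v) ^ g i = c2 v ^ (1 + 2 * g i) := by
              rw [pow_add, pow_one, pow_mul, pow_two]
            rw [e, ha]
            exact pow_le_pow_right₀ hc (by have := hgD i; omega)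
        _ = c2 v ^ (Fintype.card σ * a) := by
            rw [Finset.prod_const, Finset.card_univ, ← pow_mul, mul_comm]
    · have h3 : v (coeff g (f k)) ≤ Gc v := by
        rw [hGc]
        have h4 : Mv v (coeff g (f k)) ≤ ∏ g ∈ (f k).support, Mv v (coeff g (f k)) :=
          le_prod_one _ (fun g => Mv v (coeff g (f k))) (fun g _ => one_le_Mv v _) hg
        have h5 : ∏ g ∈ (f k).support, Mv v (coeff g (f k)) ≤
            ∏ k, ∏ g ∈ (f k).support, Mv v (coeff g (f k)) :=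
          le_prod_one Finset.univ (fun k => ∏ g ∈ (f k).support, Mv v (coeff g (f k)))
            (fun k _ => by
              calc (1 : ℝ) = ∏ _g ∈ (f k).support, 1 := by simp
                _ ≤ _ := Finset.prod_le_prod (fun _ _ => zero_le_one)
                  fun i _ => one_le_Mv v _) (Finset.mem_univ k)
        exact (le_max_right _ _).trans (h4.trans h5)
      have h6 : ∏ i, Mv v (ξ j i) ^ g i ≤ (∏ i, Mv v (ξ j i)) ^ D := by
        rw [← Finset.prod_pow]
        exact Finset.prod_le_prod (fun i _ => by have := Mv_pos v (ξ j i); positivity)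
          fun i _ => pow_le_pow_right₀ (hM1 j i) (hgD i)
      have h7 : 0 ≤ ∏ i, Mv v (ξ j i) ^ g i :=
        Finset.prod_nonneg fun i _ => by have := Mv_pos v (ξ j i); positivity
      exact mul_le_mul h3 h6 h7 (by linarith)
  have hsum := Gd.sum NF hρ0' (f k).support
    (fun g => algebraMap K _ (coeff g (f k)) * ∏ i, X j i ^ g i)
    (fun g => coeff g (f k) * ∏ i, ξ j i ^ g i)
    (c2 v ^ (1 + Fintype.card σ * a)) (Gc v * (∏ i, Mv v (ξ j i)) ^ D)
    (one_le_pow₀ hc) (mul_nonneg (by linarith) (hPD j).le) hmon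
  have e1 : ∑ g ∈ (f k).support, algebraMap K (MvPowerSeries (Fin n × σ) K) (coeff g (f k)) *
      ∏ i, X j i ^ g i = aeval (X j) (f k) := by
    rw [aeval_def, eval₂_eq']
  have e2 : ∑ g ∈ (f k).support, coeff g (f k) * ∏ i, ξ j i ^ g i = eval (ξ j) (f k) := by
    rw [eval_eq']
  rw [e1, e2] at hsum
  -- the value
  obtain ⟨T', hT'⟩ : ∃ T' : ℝ, T' = c2 v ^ (f k).support.card *
    (Gc v * (∏ i, Mv v (ξ j i)) ^ D) := ⟨_, rfl⟩
  rw [← hT'] at hsum
  have hPD' := hPD j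
  have hval : v (eval (ξ j) (f k)) ≤ ρ * T' := by
    rcases le_total 1 ((⨆ k, v (eval (ξ j) (f k))) / (∏ i, Mv v (ξ j i)) ^ D) with h | h
    · have h1 : ρ = 1 := min_eq_left h
      rw [h1, one_mul]
      exact hsum.vp
    · have h1 : ρ = (⨆ k, v (eval (ξ j) (f k))) / (∏ i, Mv v (ξ j i)) ^ D := min_eq_right h
      have hS0 : 0 ≤ ⨆ k, v (eval (ξ j) (f k)) := (v.nonneg _).trans (hSle j k)
      rw [h1, hT']
      have h2 : (⨆ k, v (eval (ξ j) (f k))) / (∏ i, Mv v (ξ j i)) ^ D *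
          (c2 v ^ (f k).support.card * (Gc v * (∏ i, Mv v (ξ j i)) ^ D)) =
          (c2 v ^ (f k).support.card * Gc v) * ⨆ k, v (eval (ξ j) (f k)) := by
        field_simp
      rw [h2]
      have h3 : 1 ≤ c2 v ^ (f k).support.card * Gc v :=
        one_le_mul_of_one_le_of_one_le (one_le_pow₀ hc) hGc1
      calc v (eval (ξ j) (f k)) ≤ 1 * ⨆ k, v (eval (ξ j) (f k)) := by
            rw [one_mul]; exact hSle j k
        _ ≤ _ := mul_le_mul_of_nonneg_right h3 hS0
  have hfin : NPS v (rad D f b v ξ) (aeval (X j) (f k))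
      (c2 v * (c2 v ^ (1 + Fintype.card σ * a) * ρ * T')) := by
    have e : aeval (X j) (f k) = (aeval (X j) (f k) - algebraMap K _ (eval (ξ j) (f k))) +
        algebraMap K _ (eval (ξ j) (f k)) := by ring
    rw [e]
    refine frame_add NF hsum.nD (NF.mono _ _ _ (NF.const _) ?_)
    have hT0 := hsum.T0
    calc v (eval (ξ j) (f k)) ≤ 1 * ρ * T' := by rw [one_mul]; exact hval
      _ ≤ c2 v ^ (1 + Fintype.card σ * a) * ρ * T' := by
        gcongr
        exact one_le_pow₀ hc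
  refine NF.mono _ _ _ hfin ?_
  have hsc : (f k).support.card ≤ n0 := by
    rw [hn0]
    exact Finset.single_le_sum (f := fun k => (f k).support.card) (fun _ _ => Nat.zero_le _)
      (Finset.mem_univ k)
  rw [hT', hb]
  calc c2 v * (c2 v ^ (1 + Fintype.card σ * a) * ρ *
        (c2 v ^ (f k).support.card * (Gc v * (∏ i, Mv v (ξ j i)) ^ D)))
      = ρ * ((1 * (c2 v ^ (1 + (1 + Fintype.card σ * a) + (f k).support.card) *
          (1 * Gc v))) * (∏ i, Mv v (ξ j i)) ^ D) := by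
        rw [pow_add (c2 v) (1 + (1 + Fintype.card σ * a)) (f k).support.card,
          pow_add (c2 v) 1 (1 + Fintype.card σ * a), pow_one]; ring
    _ ≤ ρ * (B v * (c2 v ^ m * (Gb v * Gc v)) * (∏ i, Mv v (ξ j i)) ^ D) := by
        have h9 : 0 ≤ (∏ i, Mv v (ξ j i)) ^ D := hPD'.le
        gcongr
        rw [hm]; omega

end Pool.Agent.Helper73.VN.TAYF
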